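import Pool.Agent.Run7.h1.FR.Mid

/-!
# Kernels of locally finite representation type

Owner helper1.
-/

set_option autoImplicit false

namespace Pool.Agent.Run7.h1.FR

open Pool.Agent.Y110.FJ Pool.Agent.Y462.SS

/-- conjugation by `g` on the normal subgroup `N` -/
def cj {G : Type} [Group G] (N : Subgroup G) [hN : N.Normal] (g : G) : N →* N where
  toFun n := ⟨g * n * g⁻¹, hN.conj_mem n n.2 g⟩
  map_one' := Subtype.ext (by simp)
  map_mul' a b := Subtype.ext (by simp [mul_assoc])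

theorem cj_val {G : Type} [Group G] (N : Subgroup G) [N.Normal] (g : G) (n : N) :
    (cj N g n : G) = g * n * g⁻¹ := rfl

theorem cj_cj {G : Type} [Group G] (N : Subgroup G) [N.Normal] (g h : G) (n : N) :
    cj N g (cj N h n) = cj N (g * h) n := by
  apply Subtype.ext
  simp only [cj_val]
  group

theorem cj_one {G : Type} [Group G] (N : Subgroup G) [N.Normal] (n : N) : cj N 1 n = n := by
  apply Subtype.ext
  simp [cj_val]

/-- finitely many homomorphisms at once -/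
theorem many {C : ∀ (G : Type) [Group G], Prop} (hC : ClosedE C) {H Γ : Type} [Group H] [Group Γ]
    {S : Type} [Finite S] (s : S → (H →* Γ)) (𝒜 : Subgroup (MulAut Γ))
    (h𝒜 : ∀ ψ ∈ 𝒜, C (Tor Γ ψ)) (R : Set (H × H))
    (hR : ∀ i, ∃ i', ∃ ψ ∈ 𝒜, ∀ r ∈ R, s i' r.2 = ψ (s i r.1))
    (hL : ∀ i, ∃ i', ∃ ψ ∈ 𝒜, ∀ r ∈ R, s i r.2 = ψ (s i' r.1)) (J : Set S) :
    ∃ (P : Type) (_ : Group P) (f : H →* P) (π : P), C P ∧ (∀ r ∈ R, π * f r.1 = f r.2 * π) ∧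
      ∀ x, f x = 1 → ∀ i ∈ J, s i x = 1 := by
  induction J, (Set.toFinite J) using Set.Finite.induction_on with
  | empty =>
    exact ⟨Multiplicative ℤ, inferInstance, 1, 1, hC.base.int, fun _ _ => rfl,
      fun _ _ i hi => absurd hi (Set.notMem_empty i)⟩
  | @insert a t _ _ ih =>
    obtain ⟨P, _, f, π, h1, h2, h3⟩ := ih
    obtain ⟨P', _, f', π', h1', h2', h3'⟩ := walk hC s 𝒜 h𝒜 R hR hL a
    refine ⟨P × P', inferInstance, f.prod f', (π, π'), hC.base.prod _ _ h1 h1',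
      fun r hr => Prod.ext (h2 r hr) (h2' r hr), fun x hx i hi => ?_⟩
    rcases Set.mem_insert_iff.1 hi with rfl | hi
    · exact h3' x (congrArg Prod.snd hx)
    · exact h3 x (congrArg Prod.fst hx) i hi

/-- The subgroup generated by the subset `E` of the normal subgroup `N` has finite representation
type: there are a group `Γ` and a group `𝒜` of automorphisms of `Γ` whose mapping tori are in `C`, and
a set `𝓗` of homomorphisms `N → Γ` such that the elements of `⟨E⟩` are separated by the elements of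
`𝓗`, the restrictions to `E` of the elements of `𝓗` form finitely many classes modulo `𝒜`, and the
conjugation by `g` permutes the elements of `𝓗` up to elements of `𝒜`. -/
def FinRep (C : ∀ (G : Type) [Group G], Prop) {G : Type} [Group G] (N : Subgroup G)
    [hN : N.Normal] (g : G) (E : Set N) : Prop :=
  ∃ (Γ : Type) (_ : Group Γ) (𝒜 : Subgroup (MulAut Γ)) (𝓗 : Set (N →* Γ)),
    (∀ ψ ∈ 𝒜, C (Γ ⋊[zpowersHom (MulAut Γ) ψ] Multiplicative ℤ)) ∧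
    (∀ n ∈ Subgroup.closure E, (∀ χ ∈ 𝓗, χ n = 1) → n = 1) ∧
    (∃ F : Set (N →* Γ), F.Finite ∧ ∀ χ ∈ 𝓗, ∃ χ₀ ∈ F, ∃ ψ ∈ 𝒜, ∀ n ∈ E, χ n = ψ (χ₀ n)) ∧
    (∀ χ ∈ 𝓗, ∃ χ' ∈ 𝓗, ∃ ψ ∈ 𝒜, ∀ n : N, χ' ⟨g * n * g⁻¹, hN.conj_mem n n.2 g⟩ = ψ (χ n)) ∧
    (∀ χ ∈ 𝓗, ∃ χ' ∈ 𝓗, ∃ ψ ∈ 𝒜, ∀ n : N, χ ⟨g * n * g⁻¹, hN.conj_mem n n.2 g⟩ = ψ (χ' n))

theorem main {C : ∀ (G : Type) [Group G], Prop} (hC : ClosedE C)
    (G : Type) [Group G] (N : Subgroup G) [hN : N.Normal] (hQ : C (G ⧸ N))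
    (h : ∀ (g : G) (E : Set N), E.Finite → FinRep C N g E) : C G := by
  refine Pool.Agent.N24.FV.crit hC G N hQ fun g E hE hEN => ?_
  -- the finite subset `D = E ∪ g E g⁻¹` of `N`
  obtain ⟨D, hD⟩ : ∃ D : Set N, D = Subtype.val ⁻¹' (E ∪ (fun x => g * x * g⁻¹) '' E) := ⟨_, rfl⟩
  have hDf : D.Finite := by
    rw [hD]
    exact (hE.union (hE.image _)).preimage Subtype.val_injective.injOn
  obtain ⟨Γ, _, 𝒜, 𝓗, h𝒜, hsep, ⟨F, hF, hF𝓗⟩, hnx, hpv⟩ := h g D hDf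
  -- representatives of the classes
  have hrep : ∃ F' : Set (N →* Γ), F'.Finite ∧ F' ⊆ 𝓗 ∧
      ∀ χ ∈ 𝓗, ∃ χ₀ ∈ F', ∃ ψ ∈ 𝒜, ∀ n ∈ D, χ n = ψ (χ₀ n) := by
    let B : Set (N →* Γ) := {χ₀ ∈ F | ∃ χ ∈ 𝓗, ∃ ψ ∈ 𝒜, ∀ n ∈ D, χ n = ψ (χ₀ n)}
    have hB : B.Finite := hF.subset fun _ hx => hx.1
    have h1 : ∀ χ₀ : N →* Γ, ∃ χ : N →* Γ, χ₀ ∈ B → χ ∈ 𝓗 ∧ ∃ ψ ∈ 𝒜, ∀ n ∈ D, χ n = ψ (χ₀ n) := by
      intro χ₀
      by_cases hb : χ₀ ∈ B
      · obtain ⟨-, χ, h1, h2⟩ := hb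
        exact ⟨χ, fun _ => ⟨h1, h2⟩⟩
      · exact ⟨χ₀, fun h => absurd h hb⟩
    choose ρ hρ using h1
    refine ⟨ρ '' B, hB.image _, ?_, fun χ hχ => ?_⟩
    · rintro _ ⟨χ₀, h2, rfl⟩
      exact (hρ χ₀ h2).1
    · obtain ⟨χ₀, h2, ψ, hψ, h3⟩ := hF𝓗 χ hχ
      have h4 : χ₀ ∈ B := ⟨h2, χ, hχ, ψ, hψ, h3⟩
      obtain ⟨-, φ, hφ, h5⟩ := hρ χ₀ h4
      refine ⟨ρ χ₀, ⟨χ₀, h4, rfl⟩, ψ * φ⁻¹, 𝒜.mul_mem hψ (𝒜.inv_mem hφ), fun n hn => ?_⟩
      rw [h3 n hn, h5 n hn, MulAut.mul_apply, MulAut.inv_apply_self]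
  obtain ⟨F', hF'f, hF'𝓗, hF'⟩ := hrep
  have hFin : Finite F' := hF'f
  have hle : Subgroup.closure (E ∪ (fun x => g * x * g⁻¹) '' E) ≤ N := by
    rw [Subgroup.closure_le]
    refine Set.union_subset hEN ?_
    rintro _ ⟨x, hx, rfl⟩
    exact hN.conj_mem x (hEN hx) g
  obtain ⟨H, hH⟩ : ∃ H : Subgroup G, H = Subgroup.closure (E ∪ (fun x => g * x * g⁻¹) '' E) :=
    ⟨_, rfl⟩
  rw [← hH] at hle
  -- the elements of `H` are in the group generated by `D`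
  have hHD : ∀ x : H, Subgroup.inclusion hle x ∈ Subgroup.closure D := by
    have h1 : H ≤ (Subgroup.closure D).map N.subtype := by
      rw [hH, Subgroup.closure_le]
      intro x hx
      have hxN : x ∈ N := by
        rcases hx with hx | ⟨y, hy, rfl⟩
        · exact hEN hx
        · exact hN.conj_mem y (hEN hy) g
      exact ⟨⟨x, hxN⟩, Subgroup.subset_closure (by rw [hD]; exact hx), rfl⟩
    intro x
    obtain ⟨y, hy, hyx⟩ := h1 x.2
    have h2 : y = Subgroup.inclusion hle x := Subtype.ext hyx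
    rw [← h2]
    exact hy
  obtain ⟨P, _, f, π, hCP, hf, hinj⟩ := many hC (H := H) (S := F')
    (fun χ => χ.1.comp (Subgroup.inclusion hle)) 𝒜 h𝒜
    {r | (r.1 : G) ∈ E ∧ (r.2 : G) = g * r.1 * g⁻¹} (fun χ => by
      obtain ⟨χ', hχ', ψ, hψ, h1⟩ := hnx χ.1 (hF'𝓗 χ.2)
      obtain ⟨χ₀, hχ₀, φ, hφ, h2⟩ := hF' χ' hχ'
      refine ⟨⟨χ₀, hχ₀⟩, φ⁻¹ * ψ, 𝒜.mul_mem (𝒜.inv_mem hφ) hψ, ?_⟩
      rintro ⟨a, b⟩ ⟨ha, hb⟩
      have hb' : Subgroup.inclusion hle b ∈ D := by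
        rw [hD]
        exact Or.inr ⟨a, ha, hb.symm⟩
      have h3 := h2 _ hb'
      have h4 := h1 (Subgroup.inclusion hle a)
      have h5 : (⟨g * (Subgroup.inclusion hle a : N) * g⁻¹,
          hN.conj_mem _ (Subgroup.inclusion hle a).2 g⟩ : N) = Subgroup.inclusion hle b :=
        Subtype.ext hb.symm
      rw [h5, h3] at h4
      show χ₀ (Subgroup.inclusion hle b) = (φ⁻¹ * ψ) (χ.1 (Subgroup.inclusion hle a))
      rw [MulAut.mul_apply, ← h4, MulAut.inv_apply_self])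
    (fun χ => by
      obtain ⟨χ', hχ', ψ, hψ, h1⟩ := hpv χ.1 (hF'𝓗 χ.2)
      obtain ⟨χ₀, hχ₀, φ, hφ, h2⟩ := hF' χ' hχ'
      refine ⟨⟨χ₀, hχ₀⟩, ψ * φ, 𝒜.mul_mem hψ hφ, ?_⟩
      rintro ⟨a, b⟩ ⟨ha, hb⟩
      have ha' : Subgroup.inclusion hle a ∈ D := by
        rw [hD]
        exact Or.inl ha
      have h3 := h2 _ ha'
      have h4 := h1 (Subgroup.inclusion hle a)
      have h5 : (⟨g * (Subgroup.inclusion hle a : N) * g⁻¹,
          hN.conj_mem _ (Subgroup.inclusion hle a).2 g⟩ : N) = Subgroup.inclusion hle b :=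
        Subtype.ext hb.symm
      rw [h5, h3] at h4
      exact h4) Set.univ
  unfold Realized
  rw [← hH]
  refine ⟨P, inferInstance, f, π, hCP, ?_, fun x y hx hy => ?_⟩
  · rw [injective_iff_map_eq_one]
    intro x hx
    have h1 := hinj x hx
    have h2 : Subgroup.inclusion hle x = 1 := by
      refine hsep _ (hHD x) fun χ hχ => ?_
      obtain ⟨χ₀, hχ₀, ψ, hψ, h3⟩ := hF' χ hχ
      -- two homomorphisms which agree on `D` agree on the group generated by `D`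
      have h4 : Set.EqOn χ (ψ.toMonoidHom.comp χ₀) (Subgroup.closure D : Subgroup N) :=
        MonoidHom.eqOn_closure fun n hn => h3 n hn
      have h5 : χ (Subgroup.inclusion hle x) = ψ (χ₀ (Subgroup.inclusion hle x)) := h4 (hHD x)
      rw [h5]
      have h6 : χ₀ (Subgroup.inclusion hle x) = 1 := h1 ⟨χ₀, hχ₀⟩ (Set.mem_univ _)
      rw [h6, map_one]
    exact (Subgroup.inclusion_injective hle) (by rw [h2, map_one])
  · have h1 := hf (x, y) ⟨hx, hy⟩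
    rw [eq_mul_inv_iff_mul_eq]
    exact h1.symm

/-! ### inner automorphisms -/

/-- the mapping torus of an inner automorphism is a direct product -/
theorem C_inner {C : ∀ (G : Type) [Group G], Prop} (hC : Closed C) {Γ : Type} [Group Γ] (hΓ : C Γ)
    (ψ : MulAut Γ) (hψ : ψ ∈ (MulAut.conj : Γ →* MulAut Γ).range) : C (Tor Γ ψ) := by
  obtain ⟨a, rfl⟩ := hψ
  refine hC.of_injective _ (Γ × Multiplicative ℤ)
    { toFun := fun x => (x.left * a ^ (Multiplicative.toAdd x.right), x.right)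
      map_one' := by
        refine Prod.ext ?_ rfl
        show (1 : Γ) * a ^ (0 : ℤ) = 1
        simp
      map_mul' := fun x y => by
        refine Prod.ext ?_ rfl
        show (x * y).left * a ^ (Multiplicative.toAdd (x * y).right) =
          x.left * a ^ (Multiplicative.toAdd x.right) * (y.left * a ^ (Multiplicative.toAdd y.right))
        rw [SemidirectProduct.mul_left, SemidirectProduct.mul_right, toAdd_mul, zpowersHom_apply,
          ← map_zpow, MulAut.conj_apply, zpow_add]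
        group } ?_ (hC.prod _ _ hΓ hC.int)
  intro x y hxy
  have h1 : x.right = y.right := congrArg Prod.snd hxy
  have h2 : x.left * a ^ (Multiplicative.toAdd x.right) =
    y.left * a ^ (Multiplicative.toAdd y.right) := congrArg Prod.fst hxy
  rw [h1] at h2
  exact SemidirectProduct.ext (mul_right_cancel h2) h1

/-- **groups with finitely many classes of homomorphisms locally**: no condition on the extension -/
theorem main_inner {C : ∀ (G : Type) [Group G], Prop} (hC : ClosedE C)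
    (G : Type) [Group G] (N : Subgroup G) [hN : N.Normal] (hQ : C (G ⧸ N))
    (h : ∀ E : Set N, E.Finite → ∃ (Γ : Type) (_ : Group Γ), C Γ ∧
      (∀ n ∈ Subgroup.closure E, (∀ χ : N →* Γ, χ n = 1) → n = 1) ∧
      ∃ F : Set (N →* Γ), F.Finite ∧ ∀ χ : N →* Γ, ∃ χ₀ ∈ F, ∃ γ : Γ, ∀ n ∈ E,
        χ n = γ * χ₀ n * γ⁻¹) : C G := by
  refine main hC G N hQ fun g E hE => ?_
  obtain ⟨Γ, _, hΓ, hsep, F, hF, hFχ⟩ := h E hE
  refine ⟨Γ, inferInstance, (MulAut.conj : Γ →* MulAut Γ).range, Set.univ,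
    fun ψ hψ => C_inner hC.base hΓ ψ hψ, fun n hn h1 => hsep n hn fun χ => h1 χ (Set.mem_univ _),
    ⟨F, hF, fun χ _ => ?_⟩, fun χ _ => ?_, fun χ _ => ?_⟩
  · obtain ⟨χ₀, h1, γ, h2⟩ := hFχ χ
    exact ⟨χ₀, h1, MulAut.conj γ, ⟨γ, rfl⟩, fun n hn => by rw [h2 n hn, MulAut.conj_apply]⟩
  · refine ⟨χ.comp (cj N g⁻¹), Set.mem_univ _, 1, one_mem _, fun n => ?_⟩
    show χ (cj N g⁻¹ (cj N g n)) = χ n
    rw [cj_cj, inv_mul_cancel, cj_one]
  · refine ⟨χ.comp (cj N g), Set.mem_univ _, 1, one_mem _, fun n => rfl⟩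

/-- **families of homomorphisms with finitely many values at each element** -/
theorem main_family {C : ∀ (G : Type) [Group G], Prop} (hC : ClosedE C) {G X Γ : Type} [Group G]
    [Group Γ] (N : Subgroup G) [hN : N.Normal] (hQ : C (G ⧸ N)) (𝒜 : Subgroup (MulAut Γ))
    (h𝒜 : ∀ ψ ∈ 𝒜, C (Tor Γ ψ)) (χ : X → (N →* Γ)) (hsep : ∀ n, (∀ x, χ x n = 1) → n = 1)
    (hfin : ∀ n, (Set.range fun x => χ x n).Finite)
    (hnx : ∀ (g : G) (x : X), ∃ x', ∃ ψ ∈ 𝒜, ∀ n, χ x' (cj N g n) = ψ (χ x n))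
    (hpv : ∀ (g : G) (x : X), ∃ x', ∃ ψ ∈ 𝒜, ∀ n, χ x (cj N g n) = ψ (χ x' n)) : C G := by
  refine main hC G N hQ fun g E hE => ?_
  have hfin : (Set.range fun (x : X) (n : E) => χ x n).Finite := by
    have : Finite E := hE
    refine (Set.Finite.pi (t := fun n : E => Set.range fun x => χ x n) fun n => hfin n.1).subset ?_
    rintro _ ⟨x, rfl⟩ n _
    exact ⟨x, rfl⟩
  -- choose representatives
  obtain ⟨Y, hY, hYX⟩ : ∃ Y : Set X, Y.Finite ∧ ∀ x, ∃ y ∈ Y, ∀ n ∈ E, χ x n = χ y n := by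
    obtain ⟨Y, -, hY⟩ := Set.exists_subset_bijOn (Set.univ : Set X)
      (fun (x : X) (n : E) => χ x n)
    refine ⟨Y, ?_, fun x => ?_⟩
    · refine Set.Finite.of_finite_image ?_ hY.2.1
      exact hfin.subset (Set.image_subset_range _ _)
    · obtain ⟨y, hy, hxy⟩ := hY.2.2 ⟨x, Set.mem_univ _, rfl⟩
      exact ⟨y, hy, fun n hn => (congrFun hxy ⟨n, hn⟩).symm⟩
  refine ⟨Γ, inferInstance, 𝒜, Set.range χ, h𝒜, fun n _ h1 => hsep n fun x => h1 _ ⟨x, rfl⟩,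
    ⟨χ '' Y, hY.image _, ?_⟩, ?_, ?_⟩
  · rintro _ ⟨x, rfl⟩
    obtain ⟨y, hy, h1⟩ := hYX x
    exact ⟨χ y, ⟨y, hy, rfl⟩, 1, one_mem _, fun n hn => h1 n hn⟩
  · rintro _ ⟨x, rfl⟩
    obtain ⟨x', ψ, hψ, h1⟩ := hnx g x
    exact ⟨χ x', ⟨x', rfl⟩, ψ, hψ, h1⟩
  · rintro _ ⟨x, rfl⟩
    obtain ⟨x', ψ, hψ, h1⟩ := hpv g x
    exact ⟨χ x', ⟨x', rfl⟩, ψ, hψ, h1⟩

/-- **kernels of sections of finite range** -/
theorem main_range {C : ∀ (G : Type) [Group G], Prop} (hC : ClosedE C) {G X Γ : Type} [Group G]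
    [Group Γ] (j : G →* Wr X Γ) (N : Subgroup G) [hN : N.Normal] (hQ : C (G ⧸ N)) (hΓ : C Γ)
    (hinj : ∀ n ∈ N, j n = 1 → n = 1) (hp : ∀ n ∈ N, (j n).p = 1)
    (hs : ∀ n ∈ N, (Set.range (j n).s).Finite) : C G := by
  have hconj : ∀ (g : G) (n : N) (x : X), (j (g * n * g⁻¹)).s ((j g).p x) =
      (j g).s x * (j n).s x * ((j g).s x)⁻¹ := by
    intro g n x
    have h1 : j (g * n * g⁻¹) * j g = j g * j n := by
      rw [← map_mul, ← map_mul, inv_mul_cancel_right]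
    have h2 := congrFun (congrArg Wr.s h1) x
    rw [Wr.mul_s, Wr.mul_s, hp n n.2] at h2
    rw [eq_mul_inv_iff_mul_eq]
    exact h2
  let χ : X → (N →* Γ) := fun x =>
    { toFun := fun n => (j n).s x
      map_one' := by
        show (j ((1 : N) : G)).s x = 1
        rw [OneMemClass.coe_one, map_one]
        rfl
      map_mul' := fun a b => by
        show (j ((a * b : N) : G)).s x = (j a).s x * (j b).s x
        rw [Subgroup.coe_mul, map_mul, Wr.mul_s, hp b b.2]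
        rfl }
  refine main_family hC N hQ (MulAut.conj : Γ →* MulAut Γ).range
    (fun ψ hψ => C_inner hC.base hΓ ψ hψ) χ (fun n h1 => ?_) (fun n => hs n n.2)
    (fun g x => ?_) (fun g x => ?_)
  · apply Subtype.ext
    exact hinj n n.2 (Wr.ext (funext h1) (hp n n.2))
  · refine ⟨(j g).p x, MulAut.conj ((j g).s x), ⟨_, rfl⟩, fun n => ?_⟩
    rw [MulAut.conj_apply]
    exact hconj g n x
  · refine ⟨(j g).p⁻¹ x, MulAut.conj ((j g).s ((j g).p⁻¹ x)), ⟨_, rfl⟩, fun n => ?_⟩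
    rw [MulAut.conj_apply]
    have h1 := hconj g n ((j g).p⁻¹ x)
    have h2 : (j g).p ((j g).p⁻¹ x) = x := (j g).p.apply_symm_apply x
    rw [h2] at h1
    exact h1

end Pool.Agent.Run7.h1.FR
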