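import Mathlib

/-!
# Walks in finite sets with labels in a group: periodic continuations

Owner helper1.
-/

set_option autoImplicit false

namespace Pool.Agent.Run7.h1.FR

section it

variable {S A : Type} [Group A] (nx : S → S) (ψ : S → A)

/-- the walk and the products of its labels -/
def it (i : S) : ℕ → S × A
  | 0 => (i, 1)
  | n + 1 => (nx (it i n).1, (it i n).2 * ψ (it i n).1)

@[simp] theorem it_zero (i : S) : it nx ψ i 0 = (i, 1) := rfl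

theorem it_succ (i : S) (n : ℕ) :
    it nx ψ i (n + 1) = (nx (it nx ψ i n).1, (it nx ψ i n).2 * ψ (it nx ψ i n).1) := rfl

theorem it_mem (𝒜 : Subgroup A) (h : ∀ i, ψ i ∈ 𝒜) (i : S) (n : ℕ) : (it nx ψ i n).2 ∈ 𝒜 := by
  induction n with
  | zero => exact 𝒜.one_mem
  | succ n ih => exact 𝒜.mul_mem ih (h _)

/-- the walk is periodic from some time on -/
theorem it_per [Finite S] (i : S) : ∃ m p : ℕ, 0 < p ∧ (it nx ψ i (m + p)).1 = (it nx ψ i m).1 := by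
  obtain ⟨a, b, hab, h⟩ := Finite.exists_ne_map_eq_of_infinite fun n : ℕ => (it nx ψ i n).1
  rcases lt_or_gt_of_ne hab with hlt | hlt
  · exact ⟨a, b - a, Nat.sub_pos_of_lt hlt, by rw [Nat.add_sub_cancel' hlt.le]; exact h.symm⟩
  · exact ⟨b, a - b, Nat.sub_pos_of_lt hlt, by rw [Nat.add_sub_cancel' hlt.le]; exact h⟩

variable {nx ψ} {i : S} {m p : ℕ}

theorem it_add (hm : (it nx ψ i (m + p)).1 = (it nx ψ i m).1) (k : ℕ) :
    it nx ψ i (m + k + p) =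
      ((it nx ψ i (m + k)).1,
        (it nx ψ i (m + p)).2 * (it nx ψ i m).2⁻¹ * (it nx ψ i (m + k)).2) := by
  induction k with
  | zero =>
    rw [add_zero, inv_mul_cancel_right]
    exact Prod.ext hm rfl
  | succ k ih =>
    have h1 : m + (k + 1) + p = (m + k + p) + 1 := by ring
    have h2 : m + (k + 1) = (m + k) + 1 := by ring
    rw [h1, h2, it_succ, it_succ, ih]
    simp only [mul_assoc]

/-- the value at `j` of the periodic continuation, computed `n` periods later -/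
def vl (nx : S → S) (ψ : S → A) (i : S) (p : ℕ) (Ψ : A) (j : ℤ) (n : ℕ) : S × A :=
  ((it nx ψ i (j + p * n).toNat).1, (Ψ ^ n)⁻¹ * (it nx ψ i (j + p * n).toNat).2)

theorem vl_succ (hm : (it nx ψ i (m + p)).1 = (it nx ψ i m).1) {Ψ : A}
    (hΨ : Ψ = (it nx ψ i (m + p)).2 * (it nx ψ i m).2⁻¹) (j : ℤ) (n : ℕ) (hj : m ≤ j + p * n) :
    vl nx ψ i p Ψ j (n + 1) = vl nx ψ i p Ψ j n := by
  obtain ⟨k, hk⟩ : ∃ k : ℕ, j + p * n = m + k := ⟨(j + p * n - m).toNat, by omega⟩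
  have h1 : (j + p * n).toNat = m + k := by omega
  have h2 : (j + p * ((n + 1 : ℕ) : ℤ)).toNat = m + k + p := by
    have : j + p * ((n + 1 : ℕ) : ℤ) = m + k + p := by
      push_cast
      linarith
    rw [this]
    omega
  unfold vl
  rw [h1, h2, it_add hm, ← hΨ]
  refine Prod.ext rfl ?_
  show (Ψ ^ (n + 1))⁻¹ * (Ψ * (it nx ψ i (m + k)).2) = (Ψ ^ n)⁻¹ * (it nx ψ i (m + k)).2
  rw [pow_succ', mul_inv_rev]
  group

theorem vl_stable (hp : 0 < p) (hm : (it nx ψ i (m + p)).1 = (it nx ψ i m).1) {Ψ : A}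
    (hΨ : Ψ = (it nx ψ i (m + p)).2 * (it nx ψ i m).2⁻¹) (j : ℤ) (n : ℕ) (hj : m ≤ j + p * n)
    (n' : ℕ) (hn : n ≤ n') : vl nx ψ i p Ψ j n' = vl nx ψ i p Ψ j n := by
  induction n', hn using Nat.le_induction with
  | base => rfl
  | succ n' hn ih =>
    rw [vl_succ hm hΨ, ih]
    refine hj.trans ?_
    have : (p : ℤ) * n ≤ p * n' := by
      exact mul_le_mul_of_nonneg_left (by exact_mod_cast hn) (by positivity)
    linarith

/-- the number of periods after which the value is stable -/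
theorem ge_m (hp : 0 < p) (j : ℤ) (n : ℕ) (hn : j.natAbs + m ≤ n) : (m : ℤ) ≤ j + p * n := by
  have h1 : (n : ℤ) ≤ p * n := by
    have : (1 : ℤ) ≤ p := by exact_mod_cast hp
    nlinarith [Int.natCast_nonneg n]
  omega

end it

/-- **one-sided walks and their periodic continuation** -/
theorem oneSided {H Γ : Type} [Group H] [Group Γ] {S : Type} [Finite S] (s : S → (H →* Γ))
    (𝒜 : Subgroup (MulAut Γ)) (R : Set (H × H))
    (hR : ∀ i, ∃ i', ∃ ψ ∈ 𝒜, ∀ r ∈ R, ψ (s i' r.2) = s i r.1) (i0 : S) :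
    ∃ (σ : ℕ → (H →* Γ)) (τ : ℤ → (H →* Γ)) (m p : ℕ) (Ψ : MulAut Γ), 0 < p ∧ Ψ ∈ 𝒜 ∧
      σ 0 = s i0 ∧ (∀ n, ∀ r ∈ R, σ (n + 1) r.2 = σ n r.1) ∧
      (∀ j, ∀ r ∈ R, τ (j + 1) r.2 = τ j r.1) ∧ (∀ j h, τ (j + p) h = Ψ (τ j h)) ∧
      ∀ n : ℕ, m ≤ n → τ n = σ n := by
  choose nx ψ hψ hR using hR
  obtain ⟨m, p, hp, hm⟩ := it_per nx ψ i0
  obtain ⟨Ψ, hΨ⟩ : ∃ Ψ, Ψ = (it nx ψ i0 (m + p)).2 * (it nx ψ i0 m).2⁻¹ := ⟨_, rfl⟩
  let th : S × MulAut Γ → (H →* Γ) := fun x => x.2.toMonoidHom.comp (s x.1)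
  have hth : ∀ x h, th x h = x.2 (s x.1 h) := fun _ _ => rfl
  have hstep : ∀ x : S × MulAut Γ, ∀ r ∈ R, th (nx x.1, x.2 * ψ x.1) r.2 = th x r.1 := by
    intro x r hr
    rw [hth, hth]
    show x.2 (ψ x.1 (s (nx x.1) r.2)) = _
    rw [hR _ r hr]
  have hst : ∀ (j : ℤ) (n : ℕ), j.natAbs + m ≤ n →
      vl nx ψ i0 p Ψ j n = vl nx ψ i0 p Ψ j (j.natAbs + m) := fun j n hn =>
    vl_stable hp hm hΨ j _ (ge_m hp j _ le_rfl) n hn
  refine ⟨fun n => th (it nx ψ i0 n), fun j => th (vl nx ψ i0 p Ψ j (j.natAbs + m)), m, p, Ψ, hp,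
    ?_, ?_, ?_, ?_, ?_, ?_⟩
  · rw [hΨ]
    exact 𝒜.mul_mem (it_mem nx ψ 𝒜 hψ _ _) (𝒜.inv_mem (it_mem nx ψ 𝒜 hψ _ _))
  · ext h
    rfl
  · intro n r hr
    exact hstep _ r hr
  · intro j r hr
    -- compute both values after the same number of periods
    obtain ⟨n, hn⟩ : ∃ n, n = max (j.natAbs + m) ((j + 1).natAbs + m) := ⟨_, rfl⟩
    have h1 := hst j n (hn ▸ le_max_left _ _)
    have h2 := hst (j + 1) n (hn ▸ le_max_right _ _)
    show th (vl nx ψ i0 p Ψ (j + 1) ((j + 1).natAbs + m)) r.2 =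
      th (vl nx ψ i0 p Ψ j (j.natAbs + m)) r.1
    rw [← h1, ← h2]
    have h3 := ge_m (m := m) hp j n (hn ▸ le_max_left _ _)
    obtain ⟨k, hk⟩ : ∃ k : ℕ, j + p * n = k := ⟨(j + p * n).toNat, by omega⟩
    have h4 : (j + p * n).toNat = k := by omega
    have h5 : (j + 1 + p * n).toNat = k + 1 := by
      have : j + 1 + p * n = k + 1 := by linarith
      rw [this]
      omega
    unfold vl
    rw [h4, h5, it_succ, hth, hth]
    show (((Ψ ^ n)⁻¹ * ((it nx ψ i0 k).2 * ψ (it nx ψ i0 k).1) : MulAut Γ))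
        (s (nx (it nx ψ i0 k).1) r.2) = ((Ψ ^ n)⁻¹ * (it nx ψ i0 k).2) (s (it nx ψ i0 k).1 r.1)
    rw [← hR _ r hr]
    rfl
  · intro j h
    obtain ⟨n, hn⟩ : ∃ n, n = max (j.natAbs + m) ((j + p).natAbs + m) := ⟨_, rfl⟩
    have h1 := hst j (n + 1) ((hn ▸ le_max_left _ _ : j.natAbs + m ≤ n).trans (Nat.le_succ n))
    have h2 := hst (j + p) n (hn ▸ le_max_right _ _)
    show th (vl nx ψ i0 p Ψ (j + p) ((j + p).natAbs + m)) h =
      Ψ (th (vl nx ψ i0 p Ψ j (j.natAbs + m)) h)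
    rw [← h1, ← h2]
    have h4 : (j + p + p * n).toNat = (j + p * ((n + 1 : ℕ) : ℤ)).toNat := by
      congr 1
      push_cast
      ring
    unfold vl
    rw [h4, hth, hth]
    show ((Ψ ^ n)⁻¹ * (it nx ψ i0 (j + p * ((n + 1 : ℕ) : ℤ)).toNat).2 : MulAut Γ) _ =
      Ψ (((Ψ ^ (n + 1))⁻¹ * (it nx ψ i0 (j + p * ((n + 1 : ℕ) : ℤ)).toNat).2 : MulAut Γ) _)
    rw [← MulAut.mul_apply, pow_succ, mul_inv_rev]
    congr 1
    group
  · intro n hn
    have h1 : vl nx ψ i0 p Ψ n ((n : ℤ).natAbs + m) = vl nx ψ i0 p Ψ n 0 :=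
      vl_stable hp hm hΨ n 0 (by simpa using hn) _ (Nat.zero_le _)
    show th (vl nx ψ i0 p Ψ n ((n : ℤ).natAbs + m)) = th (it nx ψ i0 n)
    rw [h1]
    unfold vl
    simp

end Pool.Agent.Run7.h1.FR
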