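import Pool.Agent.Run7.h1.FR.Per
import Pool.Agent.Run7.h1.FR.Seq

/-!
# Sections over the integers which are periodic near both ends

Owner helper1.
-/

set_option autoImplicit false

namespace Pool.Agent.Run7.h1.FR

open Pool.Agent.Y110.FJ Pool.Agent.Y462.SS

section mid

variable {Γ : Type} [Group Γ]

/-- a section over `ℤ` together with the periodic sections with which it agrees near the ends -/
def mid (Ψ Φ : MulAut Γ) (p q : ℕ) : Subgroup (Wr ℤ Γ × (per Ψ p × per Φ q)) where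
  carrier := {x | x.1.p = x.2.1.1.p ∧ x.1.p = x.2.2.1.p ∧
    ∃ m : ℤ, (∀ j, m ≤ j → x.1.s j = x.2.1.1.s j) ∧ (∀ j, j ≤ -m → x.1.s j = x.2.2.1.s j)}
  one_mem' := ⟨rfl, rfl, 0, fun _ _ => rfl, fun _ _ => rfl⟩
  mul_mem' := by
    rintro x y ⟨hx1, hx2, m, hx3, hx4⟩ ⟨hy1, hy2, n, hy3, hy4⟩
    have hp : ∀ j, y.1.p j = j + y.1.p 0 := by
      intro j
      rw [hy1]
      exact per_p y.2.1.2 j
    refine ⟨?_, ?_, max n (|m| + |y.1.p 0|), fun j hj => ?_, fun j hj => ?_⟩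
    · show x.1.p * y.1.p = x.2.1.1.p * y.2.1.1.p
      rw [hx1, hy1]
    · show x.1.p * y.1.p = x.2.2.1.p * y.2.2.1.p
      rw [hx2, hy2]
    · show x.1.s (y.1.p j) * y.1.s j = x.2.1.1.s (y.2.1.1.p j) * y.2.1.1.s j
      rw [← hy1, hy3 j (le_trans (le_max_left _ _) hj), hx3]
      rw [hp]
      have h1 := le_trans (le_max_right _ _) hj
      have h2 := le_abs_self m
      have h3 := neg_abs_le (y.1.p 0)
      linarith
    · show x.1.s (y.1.p j) * y.1.s j = x.2.2.1.s (y.2.2.1.p j) * y.2.2.1.s j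
      rw [← hy2, hy4 j (by have := le_max_left n (|m| + |y.1.p 0|); linarith), hx4]
      rw [hp]
      have h1 := le_max_right n (|m| + |y.1.p 0|)
      have h2 := le_abs_self m
      have h3 := le_abs_self (y.1.p 0)
      linarith
  inv_mem' := by
    rintro x ⟨hx1, hx2, m, hx3, hx4⟩
    have hp : ∀ j, x.1.p⁻¹ j = j - x.1.p 0 := by
      intro j
      rw [Equiv.Perm.inv_eq_iff_eq, hx1, per_p x.2.1.2]
      ring
    refine ⟨?_, ?_, |m| + |x.1.p 0|, fun j hj => ?_, fun j hj => ?_⟩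
    · show x.1.p⁻¹ = x.2.1.1.p⁻¹
      rw [hx1]
    · show x.1.p⁻¹ = x.2.2.1.p⁻¹
      rw [hx2]
    · show (x.1.s (x.1.p⁻¹ j))⁻¹ = (x.2.1.1.s (x.2.1.1.p⁻¹ j))⁻¹
      rw [← hx1, hx3]
      rw [hp]
      have h2 := le_abs_self m
      have h3 := le_abs_self (x.1.p 0)
      linarith
    · show (x.1.s (x.1.p⁻¹ j))⁻¹ = (x.2.2.1.s (x.2.2.1.p⁻¹ j))⁻¹
      rw [← hx2, hx4]
      rw [hp]
      have h2 := le_abs_self m
      have h3 := neg_abs_le (x.1.p 0)
      linarith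

/-- the first component -/
def midFst (Ψ Φ : MulAut Γ) (p q : ℕ) : mid Ψ Φ p q →* Wr ℤ Γ :=
  (MonoidHom.fst _ _).comp (mid Ψ Φ p q).subtype

/-- the periodic components -/
def midSnd (Ψ Φ : MulAut Γ) (p q : ℕ) : mid Ψ Φ p q →* per Ψ p × per Φ q :=
  (MonoidHom.snd _ _).comp (mid Ψ Φ p q).subtype

/-- the group of sections which are periodic near both ends is in the class -/
theorem C_mid {C : ∀ (G : Type) [Group G], Prop} (hC : ClosedE C) (Ψ Φ : MulAut Γ) (p q : ℕ)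
    (hp : 0 < p) (hq : 0 < q) (h1 : C (Tor Γ Ψ)) (h2 : C (Tor Γ Φ)) : C (mid Ψ Φ p q) := by
  have hker : ∀ n ∈ (midSnd Ψ Φ p q).ker, n.1.2 = 1 := fun n hn => hn
  refine Pool.Agent.N24.FV.fs hC (midFst Ψ Φ p q) (midSnd Ψ Φ p q).ker ?_
    (C_base hC.base Ψ h1) (fun n hn hn1 => ?_) (fun n hn => ?_) (fun n hn => ?_)
  · exact hC.base.of_injective _ _ (QuotientGroup.kerLift (midSnd Ψ Φ p q))
      (QuotientGroup.kerLift_injective _)
      (hC.base.prod _ _ (C_per hC.base Ψ p hp h1) (C_per hC.base Φ q hq h2))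
  · apply Subtype.ext
    exact Prod.ext hn1 (hker n hn)
  · have h3 := n.2.1
    rw [hker n hn] at h3
    exact h3
  · obtain ⟨-, -, m, h4, h5⟩ := n.2
    rw [hker n hn] at h4 h5
    refine (Set.finite_Icc (-m) m).subset fun j hj => ?_
    by_contra hne
    rw [Set.mem_Icc, not_and_or, not_le, not_le] at hne
    apply hj
    rcases hne with hne | hne
    · exact h5 j hne.le
    · exact h4 j hne.le

end mid

/-- **realization along a walk**: `S` is a finite set of homomorphisms such that each of them is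
continued to the right and to the left by one of them, up to automorphisms in `𝒜` -/
theorem walk {C : ∀ (G : Type) [Group G], Prop} (hC : ClosedE C) {H Γ : Type} [Group H] [Group Γ]
    {S : Type} [Finite S] (s : S → (H →* Γ)) (𝒜 : Subgroup (MulAut Γ))
    (h𝒜 : ∀ ψ ∈ 𝒜, C (Tor Γ ψ)) (R : Set (H × H))
    (hR : ∀ i, ∃ i', ∃ ψ ∈ 𝒜, ∀ r ∈ R, s i' r.2 = ψ (s i r.1))
    (hL : ∀ i, ∃ i', ∃ ψ ∈ 𝒜, ∀ r ∈ R, s i r.2 = ψ (s i' r.1)) (i0 : S) :
    ∃ (P : Type) (_ : Group P) (f : H →* P) (π : P), C P ∧ (∀ r ∈ R, π * f r.1 = f r.2 * π) ∧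
      ∀ x, f x = 1 → s i0 x = 1 := by
  obtain ⟨σ, τ, m, p, Ψ, hp, hΨ, hσ0, hσ, hτ, hτp, hστ⟩ := oneSided s 𝒜 R (fun i => by
    obtain ⟨i', ψ, hψ, h⟩ := hR i
    exact ⟨i', ψ⁻¹, 𝒜.inv_mem hψ, fun r hr => by rw [h r hr, MulAut.inv_apply_self]⟩) i0
  obtain ⟨σ', τ', m', q, Φ, hq, hΦ, hσ0', hσ', hτ', hτp', hστ'⟩ :=
    oneSided s 𝒜 {r | (r.2, r.1) ∈ R} (fun i => by
      obtain ⟨i', ψ, hψ, h⟩ := hL i
      exact ⟨i', ψ, hψ, fun r hr => (h _ hr).symm⟩) i0
  -- the section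
  let w : H →* (ℤ → Γ) :=
    { toFun := fun h j => if 0 ≤ j then σ j.toNat h else σ' (-j).toNat h
      map_one' := by
        funext j
        by_cases hj : 0 ≤ j <;> simp [hj]
      map_mul' := fun x y => by
        funext j
        by_cases hj : 0 ≤ j <;> simp [hj] }
  have hw1 : ∀ h j, 0 ≤ j → w h j = σ j.toNat h := fun h j hj => if_pos hj
  have hw2 : ∀ h j, j ≤ 0 → w h j = σ' (-j).toNat h := by
    intro h j hj
    by_cases h0 : 0 ≤ j
    · obtain rfl : j = 0 := le_antisymm hj h0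
      rw [hw1 h 0 le_rfl]
      show σ 0 h = σ' 0 h
      rw [hσ0, hσ0']
    · exact if_neg h0
  have hstep : ∀ r ∈ R, ∀ j, w r.2 (j + 1) = w r.1 j := by
    intro r hr j
    by_cases hj : 0 ≤ j
    · rw [hw1 _ _ hj, hw1 _ _ (by omega)]
      have h1 : (j + 1).toNat = j.toNat + 1 := by omega
      rw [h1, hσ _ r hr]
    · rw [hw2 _ _ (by omega), hw2 _ _ (by omega)]
      have h1 : (-j).toNat = (-(j + 1)).toNat + 1 := by omega
      rw [h1]
      exact (hσ' (-(j + 1)).toNat (r.2, r.1) hr).symm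
  -- the translation
  let t : Equiv.Perm ℤ := Equiv.addRight (1 : ℤ)
  have ht : ∀ j, t j = j + 1 := fun j => rfl
  have hmem1 : ∀ h : H, (⟨fun j => τ j h, 1⟩ : Wr ℤ Γ) ∈ per Ψ p := by
    intro h
    refine ⟨⟨0, fun j => (add_zero j).symm⟩, fun j => ?_⟩
    exact hτp j h
  have hmem2 : ∀ h : H, (⟨fun j => τ' (-j) h, 1⟩ : Wr ℤ Γ) ∈ per Φ⁻¹ q := by
    intro h
    refine ⟨⟨0, fun j => (add_zero j).symm⟩, fun j => ?_⟩
    show τ' (-(j + q)) h = Φ⁻¹ (τ' (-j) h)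
    have h1 := hτp' (-(j + q)) h
    have h2 : -(j + (q : ℤ)) + q = -j := by ring
    rw [h2] at h1
    rw [h1, MulAut.inv_apply_self]
  have hmem3 : ∀ (Θ : MulAut Γ) (n : ℕ), (⟨fun _ => 1, t⟩ : Wr ℤ Γ) ∈ per Θ n := by
    intro Θ n
    exact ⟨⟨1, fun j => rfl⟩, fun j => (map_one Θ).symm⟩
  have hmem : ∀ h : H, ((⟨w h, 1⟩ : Wr ℤ Γ), ((⟨_, hmem1 h⟩ : per Ψ p), (⟨_, hmem2 h⟩ : per Φ⁻¹ q)))
      ∈ mid Ψ Φ⁻¹ p q := by
    intro h
    refine ⟨rfl, rfl, max m m', fun j hj => ?_, fun j hj => ?_⟩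
    · have h0 : 0 ≤ j := by
        have := le_max_left (m : ℤ) m'
        omega
      show w h j = τ j h
      rw [hw1 h j h0]
      have h1 := hστ j.toNat (by have := le_max_left (m : ℤ) m'; omega)
      rw [Int.toNat_of_nonneg h0] at h1
      rw [h1]
    · have h0 : j ≤ 0 := by
        have := le_max_left (m : ℤ) m'
        omega
      show w h j = τ' (-j) h
      rw [hw2 h j h0]
      have h1 := hστ' (-j).toNat (by have := le_max_right (m : ℤ) m'; omega)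
      rw [Int.toNat_of_nonneg (by omega)] at h1
      rw [h1]
  refine ⟨mid Ψ Φ⁻¹ p q, inferInstance,
    { toFun := fun h => ⟨_, hmem h⟩
      map_one' := ?_
      map_mul' := ?_ },
    ⟨((⟨fun _ => 1, t⟩ : Wr ℤ Γ), ((⟨_, hmem3 Ψ p⟩ : per Ψ p), (⟨_, hmem3 Φ⁻¹ q⟩ : per Φ⁻¹ q))), ?_⟩,
    C_mid hC Ψ Φ⁻¹ p q hp hq (h𝒜 _ hΨ) (h𝒜 _ (𝒜.inv_mem hΦ)), ?_, ?_⟩
  · apply Subtype.ext
    refine Prod.ext ?_ (Prod.ext (Subtype.ext ?_) (Subtype.ext ?_))
    · exact Wr.ext (map_one w) rfl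
    · exact Wr.ext (funext fun j => map_one _) rfl
    · exact Wr.ext (funext fun j => map_one _) rfl
  · intro x y
    apply Subtype.ext
    refine Prod.ext ?_ (Prod.ext (Subtype.ext ?_) (Subtype.ext ?_))
    · exact Wr.ext (map_mul w x y) rfl
    · exact Wr.ext (funext fun j => map_mul _ _ _) rfl
    · exact Wr.ext (funext fun j => map_mul _ _ _) rfl
  · exact ⟨rfl, rfl, 0, fun _ _ => rfl, fun _ _ => rfl⟩
  · intro r hr
    apply Subtype.ext
    refine Prod.ext ?_ (Prod.ext (Subtype.ext ?_) (Subtype.ext ?_))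
    · apply Wr.ext
      · funext j
        show 1 * w r.1 j = w r.2 (j + 1) * 1
        rw [one_mul, mul_one, hstep r hr]
      · show t * 1 = 1 * t
        rw [one_mul, mul_one]
    · apply Wr.ext
      · funext j
        show 1 * τ j r.1 = τ (j + 1) r.2 * 1
        rw [one_mul, mul_one, hτ j r hr]
      · show t * 1 = 1 * t
        rw [one_mul, mul_one]
    · apply Wr.ext
      · funext j
        show 1 * τ' (-j) r.1 = τ' (-(j + 1)) r.2 * 1
        rw [one_mul, mul_one]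
        have h1 := hτ' (-(j + 1)) (r.2, r.1) hr
        have h2 : -(j + 1) + 1 = -j := by ring
        rw [h2] at h1
        exact h1
      · show t * 1 = 1 * t
        rw [one_mul, mul_one]
  · intro x hx
    have h1 := congrArg (fun y : mid Ψ Φ⁻¹ p q => y.1.1.s 0) hx
    have h2 : w x 0 = 1 := h1
    rw [hw1 x 0 le_rfl] at h2
    have h3 : σ 0 x = 1 := h2
    rw [hσ0] at h3
    exact h3

end Pool.Agent.Run7.h1.FR
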