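import Pool.Agent.N24.FV.Fs

/-!
# Periodic sections over the integers

Owner helper1.
-/

set_option autoImplicit false

namespace Pool.Agent.Run7.h1.FR

open Pool.Agent.Y110.FJ Pool.Agent.Y462.SS

section per

variable {Γ : Type} [Group Γ]

/-- the mapping torus -/
abbrev Tor (Γ : Type) [Group Γ] (Ψ : MulAut Γ) : Type := Γ ⋊[zpowersHom (MulAut Γ) Ψ] Multiplicative ℤ

/-- sections over `ℤ`, with a translation, which commute with the translation by `p` and `Ψ` -/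
def per (Ψ : MulAut Γ) (p : ℕ) : Subgroup (Wr ℤ Γ) where
  carrier := {a | (∃ k : ℤ, ∀ j, a.p j = j + k) ∧ ∀ j, a.s (j + p) = Ψ (a.s j)}
  one_mem' := ⟨⟨0, fun j => (add_zero j).symm⟩, fun j => (map_one Ψ).symm⟩
  mul_mem' := by
    rintro a b ⟨⟨k, hk⟩, ha⟩ ⟨⟨l, hl⟩, hb⟩
    refine ⟨⟨l + k, fun j => ?_⟩, fun j => ?_⟩
    · rw [Wr.mul_p, Equiv.Perm.mul_apply, hl, hk, add_assoc]
    · rw [Wr.mul_s, Wr.mul_s, hl, hl, map_mul, ← hb, ← ha]
      congr 2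
      ring
  inv_mem' := by
    rintro a ⟨⟨k, hk⟩, ha⟩
    have h1 : ∀ j, (a.p⁻¹ : Equiv.Perm ℤ) j = j + -k := by
      intro j
      rw [Equiv.Perm.inv_eq_iff_eq, hk]
      ring
    refine ⟨⟨-k, fun j => by rw [Wr.inv_p, h1]⟩, fun j => ?_⟩
    rw [Wr.inv_s, Wr.inv_s, h1, h1, map_inv, ← ha]
    congr 2
    ring

theorem per_mem {Ψ : MulAut Γ} {p : ℕ} {a : Wr ℤ Γ} :
    a ∈ per Ψ p ↔ (∃ k : ℤ, ∀ j, a.p j = j + k) ∧ ∀ j, a.s (j + p) = Ψ (a.s j) := Iff.rfl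

theorem per_p {Ψ : MulAut Γ} {p : ℕ} {a : Wr ℤ Γ} (h : a ∈ per Ψ p) (j : ℤ) :
    a.p j = j + a.p 0 := by
  obtain ⟨⟨k, hk⟩, -⟩ := h
  rw [hk, hk, zero_add]

theorem per_s {Ψ : MulAut Γ} {p : ℕ} {a : Wr ℤ Γ} (h : a ∈ per Ψ p) (j q : ℤ) :
    a.s (j + p * q) = (Ψ ^ q) (a.s j) := by
  obtain ⟨-, h⟩ := h
  induction q using Int.induction_on with
  | zero => simp
  | succ i ih =>
    have h1 : j + p * ((i : ℤ) + 1) = (j + p * i) + p := by ring
    rw [h1, h, ih, ← MulAut.mul_apply, ← zpow_one_add, add_comm 1]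
  | pred i ih =>
    have h1 : j + p * (-(i : ℤ)) = (j + p * (-(i : ℤ) - 1)) + p := by ring
    rw [h1, h] at ih
    rw [← Ψ.injective.eq_iff, ih, ← MulAut.mul_apply, ← zpow_one_add]
    congr 2
    ring

/-- the translation part modulo `p` -/
def perMod (Ψ : MulAut Γ) (p : ℕ) : per Ψ p →* Multiplicative (ZMod p) where
  toFun a := Multiplicative.ofAdd ((a.1.p 0 : ℤ) : ZMod p)
  map_one' := by
    show Multiplicative.ofAdd (((0 : ℤ)) : ZMod p) = 1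
    simp
  map_mul' a b := by
    rw [← ofAdd_add, ← Int.cast_add]
    congr 2
    show a.1.p (b.1.p 0) = _
    rw [per_p a.2]
    ring

theorem perMod_dvd {Ψ : MulAut Γ} {p : ℕ} (a : (perMod Ψ p).ker) : ∃ k : ℤ, a.1.1.p 0 = p * k := by
  have h : Multiplicative.ofAdd ((a.1.1.p 0 : ℤ) : ZMod p) = 1 := a.2
  have h1 : ((a.1.1.p 0 : ℤ) : ZMod p) = 0 := h
  rw [ZMod.intCast_zmod_eq_zero_iff_dvd] at h1
  exact h1

/-- the coordinates of the elements whose translation part is divisible by `p` -/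
def perCo (Ψ : MulAut Γ) (p : ℕ) (hp : 0 < p) : (perMod Ψ p).ker →* (Fin p → Tor Γ Ψ) where
  toFun a := fun r => ⟨(Ψ ^ (-(a.1.1.p 0 / (p : ℤ)))) (a.1.1.s ((r : ℕ) : ℤ)),
    Multiplicative.ofAdd (-(a.1.1.p 0 / (p : ℤ)))⟩
  map_one' := by
    funext r
    apply SemidirectProduct.ext
    · show (Ψ ^ (-((0 : ℤ) / (p : ℤ)))) 1 = 1
      rw [map_one]
    · show Multiplicative.ofAdd (-((0 : ℤ) / (p : ℤ))) = 1
      simp
  map_mul' a b := by
    have hp' : (p : ℤ) ≠ 0 := by exact_mod_cast hp.ne'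
    obtain ⟨k, hk⟩ := perMod_dvd a
    obtain ⟨l, hl⟩ := perMod_dvd b
    have hab : (a * b).1.1.p 0 = p * (k + l) := by
      show a.1.1.p (b.1.1.p 0) = _
      rw [per_p a.1.2, hk, hl]
      ring
    have e1 : a.1.1.p 0 / (p : ℤ) = k := by rw [hk, Int.mul_ediv_cancel_left _ hp']
    have e2 : b.1.1.p 0 / (p : ℤ) = l := by rw [hl, Int.mul_ediv_cancel_left _ hp']
    have e3 : (a * b).1.1.p 0 / (p : ℤ) = k + l := by rw [hab, Int.mul_ediv_cancel_left _ hp']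
    funext r
    apply SemidirectProduct.ext
    · rw [Pi.mul_apply, SemidirectProduct.mul_left]
      show (Ψ ^ (-((a * b).1.1.p 0 / (p : ℤ)))) (a.1.1.s (b.1.1.p (r : ℕ)) * b.1.1.s (r : ℕ)) =
        (Ψ ^ (-(a.1.1.p 0 / (p : ℤ)))) (a.1.1.s (r : ℕ)) *
          (Ψ ^ (-(a.1.1.p 0 / (p : ℤ)))) ((Ψ ^ (-(b.1.1.p 0 / (p : ℤ)))) (b.1.1.s (r : ℕ)))
      rw [e1, e2, e3, per_p b.1.2, hl, per_s a.1.2, map_mul, ← MulAut.mul_apply, ← MulAut.mul_apply,
        ← zpow_add, ← zpow_add]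
      congr 3
      · ring
      · ring
    · rw [Pi.mul_apply, SemidirectProduct.mul_right]
      show Multiplicative.ofAdd (-((a * b).1.1.p 0 / (p : ℤ))) =
        Multiplicative.ofAdd (-(a.1.1.p 0 / (p : ℤ))) * Multiplicative.ofAdd (-(b.1.1.p 0 / (p : ℤ)))
      rw [e1, e2, e3, ← ofAdd_add]
      congr 1
      ring

theorem perCo_injective (Ψ : MulAut Γ) (p : ℕ) (hp : 0 < p) : Function.Injective (perCo Ψ p hp) := by
  have hp' : (p : ℤ) ≠ 0 := by exact_mod_cast hp.ne'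
  rw [injective_iff_map_eq_one]
  intro a ha
  obtain ⟨k, hk⟩ := perMod_dvd a
  have e1 : a.1.1.p 0 / (p : ℤ) = k := by rw [hk, Int.mul_ediv_cancel_left _ hp']
  have h1 : ∀ r : Fin p, (Ψ ^ (-k)) (a.1.1.s ((r : ℕ) : ℤ)) = 1 ∧ k = 0 := by
    intro r
    have h2 := congrFun ha r
    have h3 := congrArg SemidirectProduct.left h2
    have h4 := congrArg SemidirectProduct.right h2
    have h3' : (Ψ ^ (-(a.1.1.p 0 / (p : ℤ)))) (a.1.1.s ((r : ℕ) : ℤ)) = 1 := h3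
    have h4' : Multiplicative.ofAdd (-(a.1.1.p 0 / (p : ℤ))) = 1 := h4
    rw [e1] at h3' h4'
    refine ⟨h3', ?_⟩
    have h5 : -k = 0 := h4'
    omega
  have hk0 : k = 0 := (h1 ⟨0, hp⟩).2
  have hs : ∀ r : Fin p, a.1.1.s ((r : ℕ) : ℤ) = 1 := fun r => by
    have h2 := (h1 r).1
    exact (MulEquiv.map_eq_one_iff _).1 h2
  apply Subtype.ext
  apply Subtype.ext
  apply Wr.ext
  · funext j
    show a.1.1.s j = 1
    have h2 : j = j % p + p * (j / p) := (Int.emod_add_mul_ediv j p).symm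
    rw [h2, per_s a.1.2]
    have h3 : (0 : ℤ) ≤ j % p := Int.emod_nonneg _ hp'
    have h4 : j % p < p := Int.emod_lt_of_pos _ (by exact_mod_cast hp)
    have h5 : j % p = (((j % p).toNat : ℕ) : ℤ) := (Int.toNat_of_nonneg h3).symm
    rw [h5, hs ⟨(j % p).toNat, by omega⟩, map_one]
  · ext j
    show a.1.1.p j = j
    rw [per_p a.1.2, hk, hk0, mul_zero, add_zero]

/-- the group of periodic sections is in the class -/
theorem C_per {C : ∀ (G : Type) [Group G], Prop} (hC : Closed C) (Ψ : MulAut Γ) (p : ℕ)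
    (hp : 0 < p) (h : C (Tor Γ Ψ)) : C (per Ψ p) := by
  have : NeZero p := ⟨hp.ne'⟩
  have hfin : Finite (Multiplicative (ZMod p)) := inferInstanceAs (Finite (ZMod p))
  refine hC.finiteIndex _ (perMod Ψ p).ker inferInstance ?_
  exact hC.of_injective _ _ (perCo Ψ p hp) (perCo_injective Ψ p hp)
    (Pool.Agent.Y812.SS.C_pow hC (Fin p) _ h)

theorem C_base {C : ∀ (G : Type) [Group G], Prop} (hC : Closed C) (Ψ : MulAut Γ)
    (h : C (Tor Γ Ψ)) : C Γ :=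
  hC.of_injective _ _ (SemidirectProduct.inl (φ := zpowersHom (MulAut Γ) Ψ))
    SemidirectProduct.inl_injective h

end per

end Pool.Agent.Run7.h1.FR
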