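import Pool.Agent.Run7.h1.FR.Main

/-!
# Groups of semilinear automorphisms over algebraic extensions

Owner helper1.
-/

set_option autoImplicit false

namespace Pool.Agent.Run7.h1.FR

open Pool.Agent.Y110.FJ Pool.Agent.Y462.SS Module

section semi

variable {k L V G : Type} [Field k] [Field L] [Algebra k L] [AddCommGroup V] [Module L V]
  [FiniteDimensional L V] [Group G] [DistribMulAction G V] (θ : G →* (L ≃ₐ[k] L))

/-- the matrix of a semilinear automorphism -/
noncomputable def mat (L V : Type) {G : Type} [Field L] [AddCommGroup V] [Module L V]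
    [FiniteDimensional L V] [Group G] [DistribMulAction G V] (g : G) :
    Matrix (Fin (finrank L V)) (Fin (finrank L V)) L :=
  fun i j => (finBasis L V).repr (g • finBasis L V j) i

variable {θ} (hs : ∀ (g : G) (a : L) (v : V), g • (a • v) = θ g a • (g • v))

include hs in
theorem mat_mul (g h : G) : mat L V (g * h) = mat L V g * (mat L V h).map (θ g) := by
  ext i j
  rw [Matrix.mul_apply]
  unfold mat
  have h1 : (g * h) • finBasis L V j =
      ∑ l, θ g ((finBasis L V).repr (h • finBasis L V j) l) • (g • finBasis L V l) := by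
    rw [mul_smul]
    conv_lhs => rw [← (finBasis L V).sum_repr (h • finBasis L V j)]
    rw [Finset.smul_sum]
    exact Finset.sum_congr rfl fun l _ => hs _ _ _
  rw [h1, map_sum, Finset.sum_apply']
  refine Finset.sum_congr rfl fun l _ => ?_
  rw [map_smul, Finsupp.smul_apply, smul_eq_mul, mul_comm]
  rfl

theorem mat_one : mat L V (1 : G) = 1 := by
  ext i j
  unfold mat
  rw [one_smul, Basis.repr_self, Finsupp.single_apply, Matrix.one_apply]
  simp [eq_comm]

/-- the invertible matrix of a semilinear automorphism -/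
noncomputable def gl (hs : ∀ (g : G) (a : L) (v : V), g • (a • v) = θ g a • (g • v)) (g : G) :
    Matrix.GeneralLinearGroup (Fin (finrank L V)) L where
  val := mat L V g
  inv := (mat L V g⁻¹).map (θ g)
  val_inv := by rw [← mat_mul hs, mul_inv_cancel, mat_one]
  inv_val := by
    have h1 : mat L V g⁻¹ * (mat L V g).map (θ g⁻¹) = 1 := by
      rw [← mat_mul hs, inv_mul_cancel, mat_one]
    have h2 := congrArg (fun M => M.map (θ g)) h1
    have h3 : ((mat L V g).map (θ g⁻¹)).map (θ g) = mat L V g := by
      ext i j
      rw [Matrix.map_apply, Matrix.map_apply, map_inv]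
      exact (θ g).apply_symm_apply _
    have h4 : (mat L V g⁻¹ * (mat L V g).map (θ g⁻¹)).map (θ g) =
        (mat L V g⁻¹).map (θ g) * ((mat L V g).map (θ g⁻¹)).map (θ g) :=
      Matrix.map_mul (f := (θ g : L ≃ₐ[k] L))
    have h5 : (1 : Matrix (Fin (finrank L V)) (Fin (finrank L V)) L).map (θ g) = 1 :=
      Matrix.map_one _ (map_zero _) (map_one _)
    have h6 : (mat L V g⁻¹ * (mat L V g).map (θ g⁻¹)).map (θ g) =
      (1 : Matrix (Fin (finrank L V)) (Fin (finrank L V)) L).map (θ g) := h2
    rw [h4, h3, h5] at h6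
    exact h6

end semi

/-- **groups of semilinear automorphisms** -/
theorem semilinear {C : ∀ (G : Type) [Group G], Prop} (hC : ClosedE C) {k L V G : Type} [Field k]
    [Field L] [Algebra k L] [Algebra.IsAlgebraic k L] [AddCommGroup V] [Module L V]
    [FiniteDimensional L V] [Group G] [DistribMulAction G V] [FaithfulSMul G V]
    (θ : G →* (L ≃ₐ[k] L)) (hs : ∀ (g : G) (a : L) (v : V), g • (a • v) = θ g a • (g • v))
    (hQ : C θ.range)
    (hGL : C (Matrix.GeneralLinearGroup (Fin (finrank L V)) (AlgebraicClosure k))) : C G := by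
  have hker : ∀ n : θ.ker, θ n = 1 := fun n => n.2
  -- the homomorphisms given by the embeddings of `L`
  let χ : (L →ₐ[k] AlgebraicClosure k) →
      (θ.ker →* Matrix.GeneralLinearGroup (Fin (finrank L V)) (AlgebraicClosure k)) := fun σ =>
    { toFun := fun n => Matrix.GeneralLinearGroup.map (σ : L →+* AlgebraicClosure k) (gl hs n)
      map_one' := by
        rw [← map_one (Matrix.GeneralLinearGroup.map (n := Fin (finrank L V))
          (σ : L →+* AlgebraicClosure k))]
        congr 1
        exact Units.ext mat_one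
      map_mul' := fun a b => by
        rw [← map_mul]
        congr 1
        apply Units.ext
        show mat L V ((a * b : θ.ker) : G) = mat L V (a : G) * mat L V (b : G)
        rw [Subgroup.coe_mul, mat_mul hs, hker a]
        congr 1 }
  have hχ : ∀ σ n i j, ((χ σ n : Matrix.GeneralLinearGroup _ _) : Matrix _ _ _) i j =
      σ (mat L V (n : G) i j) := fun σ n i j => rfl
  -- conjugation
  have hconj : ∀ (g : G) (σ : L →ₐ[k] AlgebraicClosure k) (n : θ.ker),
      χ σ (cj θ.ker g n) =
        MulAut.conj (Matrix.GeneralLinearGroup.map (σ : L →+* AlgebraicClosure k) (gl hs g))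
          (χ (σ.comp (θ g : L →ₐ[k] L)) n) := by
    intro g σ n
    rw [MulAut.conj_apply, eq_mul_inv_iff_mul_eq]
    apply Units.ext
    show (mat L V ((cj θ.ker g n : θ.ker) : G)).map σ * (mat L V g).map σ =
      (mat L V g).map σ * (mat L V (n : G)).map (σ.comp (θ g : L →ₐ[k] L))
    have h1 : mat L V ((cj θ.ker g n : θ.ker) : G) * mat L V g =
        mat L V g * (mat L V (n : G)).map (θ g) := by
      have h3 : g * (n : G) = (g * n * g⁻¹) * g := by group
      rw [← mat_mul hs, h3, mat_mul hs, cj_val]
      have h2 : θ (g * n * g⁻¹) = 1 := hker (cj θ.ker g n)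
      rw [h2]
      congr 1
    have h3 : (mat L V (n : G)).map (σ.comp (θ g : L →ₐ[k] L)) =
        ((mat L V (n : G)).map (θ g)).map σ := by
      ext i j
      rfl
    rw [h3, ← Matrix.map_mul, ← Matrix.map_mul, h1]
  refine main_family hC θ.ker ?_ (MulAut.conj :
      Matrix.GeneralLinearGroup (Fin (finrank L V)) (AlgebraicClosure k) →* MulAut _).range
    (fun ψ hψ => C_inner hC.base hGL ψ hψ) χ (fun n h1 => ?_) (fun n => ?_)
    (fun g σ => ?_) (fun g σ => ?_)
  · exact hC.base.of_injective _ _ (QuotientGroup.quotientKerEquivRange θ).toMonoidHom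
      (QuotientGroup.quotientKerEquivRange θ).injective hQ
  · -- separation
    obtain ⟨σ⟩ : Nonempty (L →ₐ[k] AlgebraicClosure k) := ⟨IsAlgClosed.lift⟩
    have h2 := h1 σ
    have h3 : mat L V (n : G) = 1 := by
      ext i j
      apply (σ : L →+* AlgebraicClosure k).injective
      have h4 := hχ σ n i j
      rw [h2] at h4
      show σ (mat L V (n : G) i j) = σ ((1 : Matrix _ _ L) i j)
      rw [← h4]
      show (1 : Matrix (Fin (finrank L V)) (Fin (finrank L V)) (AlgebraicClosure k)) i j = _
      rw [Matrix.one_apply, Matrix.one_apply]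
      split_ifs <;> simp
    have h5 : ∀ j, (n : G) • finBasis L V j = finBasis L V j := by
      intro j
      apply (finBasis L V).repr.injective
      ext i
      have h6 := congrFun (congrFun h3 i) j
      rw [Basis.repr_self, Finsupp.single_apply]
      rw [Matrix.one_apply] at h6
      unfold mat at h6
      rw [h6]
      simp [eq_comm]
    have h7 : ∀ v : V, (n : G) • v = (1 : G) • v := by
      intro v
      rw [one_smul]
      conv_lhs => rw [← (finBasis L V).sum_repr v]
      rw [Finset.smul_sum]
      conv_rhs => rw [← (finBasis L V).sum_repr v]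
      refine Finset.sum_congr rfl fun j _ => ?_
      rw [hs, hker n, h5]
      rfl
    exact Subtype.ext (FaithfulSMul.eq_of_smul_eq_smul h7)
  · -- finitely many values
    let S : Fin (finrank L V) → Fin (finrank L V) → Set (AlgebraicClosure k) := fun i j =>
      {z | z ∈ ((minpoly k (mat L V (n : G) i j)).map (algebraMap k (AlgebraicClosure k))).roots}
    have hS : ∀ i j, (S i j).Finite := fun i j => Multiset.finite_toSet _
    have h1 : ∀ σ : L →ₐ[k] AlgebraicClosure k, ∀ i j, σ (mat L V (n : G) i j) ∈ S i j := by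
      intro σ i j
      show σ (mat L V (n : G) i j) ∈ ((minpoly k (mat L V (n : G) i j)).map
        (algebraMap k (AlgebraicClosure k))).roots
      rw [Polynomial.mem_roots_map (minpoly.ne_zero (Algebra.IsIntegral.isIntegral _)),
        ← Polynomial.aeval_def, Polynomial.aeval_algHom_apply, minpoly.aeval, map_zero]
    have h2 : (Set.range fun (σ : L →ₐ[k] AlgebraicClosure k) (i j : Fin (finrank L V)) =>
        σ (mat L V (n : G) i j)).Finite := by
      refine (Set.Finite.pi (t := fun i => Set.pi Set.univ fun j => S i j) fun i =>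
        Set.Finite.pi fun j => hS i j).subset ?_
      rintro _ ⟨σ, rfl⟩ i _ j _
      exact h1 σ i j
    refine Set.Finite.of_finite_image (f := fun (M : Matrix.GeneralLinearGroup
      (Fin (finrank L V)) (AlgebraicClosure k)) (i j : Fin (finrank L V)) =>
      (M : Matrix (Fin (finrank L V)) (Fin (finrank L V)) (AlgebraicClosure k)) i j) ?_ ?_
    · refine h2.subset ?_
      rintro _ ⟨_, ⟨σ, rfl⟩, rfl⟩
      exact ⟨σ, rfl⟩
    · intro M _ M' _ h
      exact Units.ext h
  · -- successor
    refine ⟨σ.comp ((θ g).symm : L →ₐ[k] L), _, ⟨Matrix.GeneralLinearGroup.map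
        ((σ.comp ((θ g).symm : L →ₐ[k] L) : L →ₐ[k] AlgebraicClosure k) :
          L →+* AlgebraicClosure k) (gl hs g), rfl⟩, fun n => ?_⟩
    rw [hconj]
    congr 1
    apply Units.ext
    ext i j
    show σ ((θ g).symm (θ g (mat L V (n : G) i j))) = σ (mat L V (n : G) i j)
    rw [AlgEquiv.symm_apply_apply]
  · exact ⟨σ.comp (θ g : L →ₐ[k] L), _, ⟨_, rfl⟩, fun n => hconj g σ n⟩

end Pool.Agent.Run7.h1.FR
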